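import Pool.Agent.Helper39.Trans.Goals2
import Pool.Agent.Helper39.Trans.Lin

/-!
# MP_549fdb_co, packet T1: the linear faces are not more than the types
-/

set_option autoImplicit false
set_option linter.unusedSectionVars false

namespace Pool.Agent.Helper27.Trans

open Pool.Agent.Helper39.Trans Finset Classical Matrix

variable {D : ℕ} (A : Polys D) (R : Fin (D + 1) → ℝ)

/-- The function `height μ x - x_d`. -/
def gg (μ x : Fin (D + 1) → ℝ) : ℝ := Polys.height μ x - x (Fin.last D)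

theorem gg_combo_x (μ x y : Fin (D + 1) → ℝ) (a b : ℝ) (hab : a + b = 1) :
    gg μ (a • x + b • y) = a * gg μ x + b * gg μ y := by
  simp only [gg, Polys.height, Pi.add_apply, Pi.smul_apply, smul_eq_mul, mul_add]
  rw [Finset.sum_add_distrib]
  have h1 : ∑ i : Fin D, μ i.castSucc * (a * x i.castSucc) =
      a * ∑ i : Fin D, μ i.castSucc * x i.castSucc := by
    rw [Finset.mul_sum]; exact Finset.sum_congr rfl fun i _ => by ring
  have h2 : ∑ i : Fin D, μ i.castSucc * (b * y i.castSucc) =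
      b * ∑ i : Fin D, μ i.castSucc * y i.castSucc := by
    rw [Finset.mul_sum]; exact Finset.sum_congr rfl fun i _ => by ring
  rw [h1, h2]
  linear_combination (-μ (Fin.last D)) * hab

theorem gg_continuous_x (μ : Fin (D + 1) → ℝ) : Continuous (gg μ) := by
  unfold gg Polys.height
  fun_prop

theorem gg_continuous_mu (x : Fin (D + 1) → ℝ) : Continuous fun μ => gg μ x := by
  unfold gg Polys.height
  fun_prop

/-- The sign of a side. -/
def sg (s : Bool) : ℝ := if s then 1 else -1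

theorem sg_sq (s : Bool) : sg s * sg s = 1 := by cases s <;> simp [sg]

theorem h_eq (v : A.Idx) (q : Fin (D + 1) → ℝ) :
    (A.sys R).h v q = sg v.2 * gg q (v.1.2 : Fin (D + 1) → ℝ) := by
  have h1 : (A.sys R).a v = sg v.2 •
      (fun i => if i = Fin.last D then 1 else (v.1.2 : Fin (D + 1) → ℝ) i) := rfl
  have h2 : (A.sys R).b v = sg v.2 * (-((v.1.2 : Fin (D + 1) → ℝ) (Fin.last D))) := rfl
  rw [Sys.h, h1, h2, smul_dotProduct, smul_eq_mul, dotProduct, Fin.sum_univ_castSucc]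
  simp only [Fin.castSucc_ne_last, if_false, if_true, one_mul, gg, Polys.height]
  have : ∑ x : Fin D, (v.1.2 : Fin (D + 1) → ℝ) x.castSucc * q x.castSucc =
      ∑ x : Fin D, q x.castSucc * (v.1.2 : Fin (D + 1) → ℝ) x.castSucc :=
    Finset.sum_congr rfl fun _ _ => mul_comm _ _
  rw [this]
  ring

theorem full : (A.sys R).Full := by
  rintro ⟨i, s⟩
  obtain ⟨v, hv⟩ := A.nonempty i
  exact ⟨(⟨i, ⟨v, hv⟩⟩, s), rfl⟩

theorem convex_pos (μ : Fin (D + 1) → ℝ) (c : ℝ) : Convex ℝ {x | 0 < c * gg μ x} := by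
  intro x hx y hy a b ha hb hab
  simp only [Set.mem_ofPred_eq] at *
  rw [gg_combo_x _ _ _ _ _ hab]
  rcases eq_or_lt_of_le ha with h | h
  · have : b = 1 := by linarith
    subst this; rw [← h]; simpa using hy
  · have h1 := mul_pos h hx
    have h2 := mul_nonneg hb hy.le
    nlinarith

theorem convex_nonneg (μ : Fin (D + 1) → ℝ) (c : ℝ) : Convex ℝ {x | 0 ≤ c * gg μ x} := by
  intro x hx y hy a b ha hb hab
  simp only [Set.mem_ofPred_eq] at *
  rw [gg_combo_x _ _ _ _ _ hab]
  have h1 := mul_nonneg ha hx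
  have h2 := mul_nonneg hb hy
  nlinarith

theorem convex_zero (μ : Fin (D + 1) → ℝ) : Convex ℝ {x | gg μ x = 0} := by
  intro x hx y hy a b ha hb hab
  simp only [Set.mem_ofPred_eq] at *
  rw [gg_combo_x _ _ _ _ _ hab, hx, hy]
  simp

theorem mem_hyp_iff (μ x : Fin (D + 1) → ℝ) : x ∈ Polys.hyp μ ↔ gg μ x = 0 := by
  simp only [Polys.hyp, Set.mem_ofPred_eq, gg, sub_eq_zero]
  exact eq_comm

theorem hull_nonneg {μ : Fin (D + 1) → ℝ} {c : ℝ} {i : Fin A.m}
    (h : ∀ v ∈ A.V i, 0 ≤ c * gg μ v) {x : Fin (D + 1) → ℝ} (hx : x ∈ A.poly i) :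
    0 ≤ c * gg μ x :=
  convexHull_min (s := (A.V i : Set (Fin (D + 1) → ℝ))) (fun v hv => h v hv)
    (convex_nonneg μ c) hx

theorem in_iff_hull (μ : Fin (D + 1) → ℝ) (i : Fin A.m) (s : Bool) :
    (A.sys R).In (i, s) μ ↔ ∀ v ∈ A.V i, 0 < sg s * gg μ v := by
  constructor
  · intro h v hv
    have := h ((⟨i, ⟨v, hv⟩⟩, s) : A.Idx) ((A.sys R).mem_fib.2 rfl)
    rwa [h_eq] at this
  · rintro h ⟨⟨j, v⟩, s'⟩ hv
    have := (A.sys R).mem_fib.1 hv
    simp only [Polys.sys, Prod.mk.injEq] at this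
    obtain ⟨rfl, rfl⟩ := this
    rw [h_eq]
    exact h v.1 v.2

theorem mem_trans_iff (μ : Fin (D + 1) → ℝ) :
    μ ∈ A.transversals ↔ ∀ l, ¬ (A.sys R).In l μ := by
  constructor
  · rintro h ⟨i, s⟩ hin
    rw [in_iff_hull] at hin
    obtain ⟨x, hx1, hx2⟩ := h i
    rw [mem_hyp_iff] at hx1
    have : x ∈ {x | 0 < sg s * gg μ x} :=
      convexHull_min (s := (A.V i : Set (Fin (D + 1) → ℝ))) (fun v hv => hin v hv)
        (convex_pos μ _) hx2
    simp only [Set.mem_ofPred_eq, hx1, mul_zero, lt_irrefl] at this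
  · intro h i
    have h1 := h (i, true)
    have h2 := h (i, false)
    rw [in_iff_hull] at h1 h2
    push Not at h1 h2
    obtain ⟨v, hv, hv'⟩ := h1
    obtain ⟨w, hw, hw'⟩ := h2
    simp only [sg, if_true, one_mul, Bool.false_eq_true, if_false, neg_mul, neg_le,
      neg_zero] at hv' hw'
    have hpre : IsPreconnected (A.poly i) := (convex_convexHull ℝ _).isPreconnected
    have hv0 : v ∈ A.poly i := subset_convexHull ℝ _ hv
    have hw0 : w ∈ A.poly i := subset_convexHull ℝ _ hw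
    obtain ⟨x, hx, hx0⟩ := hpre.intermediate_value hv0 hw0 (gg_continuous_x μ).continuousOn
      ⟨hv', hw'⟩
    exact ⟨x, (mem_hyp_iff _ _).2 hx0, hx⟩


theorem h_continuous (v : A.Idx) : Continuous fun q => (A.sys R).h v q := by
  simp only [h_eq]
  exact continuous_const.mul (gg_continuous_mu _)

theorem h_combo (v : A.Idx) (q r : Fin (D + 1) → ℝ) (a b : ℝ) (hab : a + b = 1) :
    (A.sys R).h v (a • q + b • r) = a * (A.sys R).h v q + b * (A.sys R).h v r := by
  simp only [Sys.h, dotProduct_add, dotProduct_smul, smul_eq_mul]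
  linear_combination (-(A.sys R).b v) * hab

include R in
theorem trans_closed : IsClosed A.transversals := by
  have h1 : A.transversals = ⋂ l : Fin A.m × Bool,
      ⋃ v : {v : A.Idx // v ∈ (A.sys R).fib l}, {μ | (A.sys R).h v.1 μ ≤ 0} := by
    ext μ
    rw [mem_trans_iff A R]
    simp only [Sys.In, not_forall, not_lt, Set.mem_iInter, Set.mem_iUnion, Set.mem_ofPred_eq,
      Subtype.exists, exists_prop]
  rw [h1]
  exact isClosed_iInter fun l => isClosed_iUnion_of_finite fun v =>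
    isClosed_le (h_continuous A R v.1) continuous_const

theorem not_act_neg {μ : Fin (D + 1) → ℝ} {l : Fin A.m × Bool} (h1 : ¬ (A.sys R).In l μ)
    (h2 : ¬ (A.sys R).Act l μ) : ∀ w ∈ (A.sys R).W l μ, (A.sys R).h w μ < 0 := by
  intro w hw
  rw [(A.sys R).in_iff hw, not_lt] at h1
  rw [(A.sys R).act_iff hw] at h2
  exact lt_of_le_of_ne h1 h2

theorem not_in_nonpos {μ : Fin (D + 1) → ℝ} {l : Fin A.m × Bool} (h1 : ¬ (A.sys R).In l μ) :
    ∀ w ∈ (A.sys R).W l μ, (A.sys R).h w μ ≤ 0 := by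
  intro w hw
  rwa [(A.sys R).in_iff hw, not_lt] at h1

theorem mem_frontier_iff (μ : Fin (D + 1) → ℝ) :
    μ ∈ frontier A.transversals ↔
      (∀ l, ¬ (A.sys R).In l μ) ∧ ∃ l, (A.sys R).Act l μ := by
  rw [(trans_closed A R).frontier_eq, Set.mem_sdiff, mem_trans_iff A R]
  refine and_congr_right fun hin => ?_
  constructor
  · intro hint
    by_contra hno
    push Not at hno
    apply hint
    rw [mem_interior]
    refine ⟨⋂ l : Fin A.m × Bool,
      ⋃ v : {v : A.Idx // v ∈ (A.sys R).fib l}, {μ | (A.sys R).h v.1 μ < 0}, ?_, ?_, ?_⟩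
    · intro ν hν
      rw [mem_trans_iff A R]
      intro l hl
      have := Set.mem_iInter.1 hν l
      obtain ⟨⟨v, hv⟩, hv'⟩ := Set.mem_iUnion.1 this
      exact absurd (hl v hv) (not_lt.2 (le_of_lt hv'))
    · exact isOpen_iInter_of_finite fun l => isOpen_iUnion fun v =>
        isOpen_lt (h_continuous A R v.1) continuous_const
    · refine Set.mem_iInter.2 fun l => Set.mem_iUnion.2 ?_
      obtain ⟨w, hw⟩ := (A.sys R).W_nonempty (full A R) l μ
      exact ⟨⟨w, (A.sys R).W_subset_fib l μ hw⟩, not_act_neg A R (hin l) (hno l) w hw⟩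
  · rintro ⟨⟨i, s⟩, hact⟩ hint
    obtain ⟨v, hv, hv0⟩ := hact
    -- move in the vertical direction
    let e : Fin (D + 1) → ℝ := Pi.single (Fin.last D) (sg s)
    have hcont : Continuous fun ε : ℝ => μ + ε • e := by fun_prop
    have hnh : (fun ε : ℝ => μ + ε • e) ⁻¹' A.transversals ∈ nhds (0 : ℝ) := by
      apply hcont.continuousAt.preimage_mem_nhds
      simpa using mem_interior_iff_mem_nhds.1 hint
    obtain ⟨ε, hε, hball⟩ := Metric.mem_nhds_iff.1 hnh
    have hmem : μ + (ε / 2) • e ∈ A.transversals := by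
      apply hball
      rw [Metric.mem_ball, dist_zero_right, Real.norm_eq_abs, abs_of_pos (by positivity)]
      linarith
    rw [mem_trans_iff A R] at hmem
    apply hmem (i, s)
    intro w hw
    have hw' := (A.sys R).mem_fib.1 hw
    rw [(A.sys R).h_add]
    have hae : (A.sys R).a w ⬝ᵥ e = 1 := by
      have h1 : (A.sys R).a w = sg w.2 •
        (fun i => if i = Fin.last D then 1 else (w.1.2 : Fin (D + 1) → ℝ) i) := rfl
      have h2 : w.2 = s := by
        have : (A.sys R).grp w = (w.1.1, w.2) := rfl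
        rw [this] at hw'
        exact (Prod.mk.inj hw').2
      rw [h1, h2, dotProduct_single]
      simp [sg_sq]
    rw [hae]
    have h3 : (A.sys R).h v μ ≤ (A.sys R).h w μ := ((A.sys R).mem_W.1 hv).2 w hw'
    rw [hv0] at h3
    linarith

/-- Points of the hull at which a nonnegative function vanishes. -/
theorem hull_zero {μ : Fin (D + 1) → ℝ} {c : ℝ} (hc : c ≠ 0) {i : Fin A.m}
    (h : ∀ v ∈ A.V i, 0 ≤ c * gg μ v) {x : Fin (D + 1) → ℝ} (hx : x ∈ A.poly i)
    (hx0 : gg μ x = 0) :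
    x ∈ convexHull ℝ (((A.V i).filter fun v => gg μ v = 0 : Finset (Fin (D + 1) → ℝ)) :
      Set (Fin (D + 1) → ℝ)) := by
  rw [Polys.poly, Finset.mem_convexHull'] at hx
  obtain ⟨w, hw0, hw1, hwx⟩ := hx
  have hg : gg μ x = ∑ y ∈ A.V i, w y * gg μ y := by
    rw [← hwx]
    simp only [gg, Polys.height, Finset.sum_apply, Pi.smul_apply, smul_eq_mul, mul_sub, mul_add,
      Finset.sum_sub_distrib, Finset.sum_add_distrib, Finset.mul_sum]
    rw [Finset.sum_comm]
    have : ∑ y ∈ A.V i, w y * μ (Fin.last D) = μ (Fin.last D) := by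
      rw [← Finset.sum_mul, hw1, one_mul]
    rw [this]
    congr 2
    exact Finset.sum_congr rfl fun y _ => Finset.sum_congr rfl fun j _ => by ring
  have hsum : ∑ y ∈ A.V i, w y * (c * gg μ y) = 0 := by
    have : ∑ y ∈ A.V i, w y * (c * gg μ y) = c * ∑ y ∈ A.V i, w y * gg μ y := by
      rw [Finset.mul_sum]; exact Finset.sum_congr rfl fun _ _ => by ring
    rw [this, ← hg, hx0, mul_zero]
  have hz : ∀ y ∈ A.V i, w y * (c * gg μ y) = 0 :=
    (Finset.sum_eq_zero_iff_of_nonneg fun y hy => mul_nonneg (hw0 y hy) (h y hy)).1 hsum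
  have hz' : ∀ y ∈ A.V i, gg μ y ≠ 0 → w y = 0 := by
    intro y hy hne
    rcases mul_eq_zero.1 (hz y hy) with h | h
    · exact h
    · exact absurd h (mul_ne_zero hc hne)
  rw [Finset.mem_convexHull']
  refine ⟨w, fun y hy => hw0 y (Finset.mem_filter.1 hy).1, ?_, ?_⟩
  · rw [← hw1, Finset.sum_filter_of_ne]
    intro y hy hne
    by_contra h0
    exact hne (hz' y hy h0)
  · rw [← hwx, Finset.sum_filter_of_ne]
    intro y hy hne
    by_contra h0
    exact hne (by rw [hz' y hy h0, zero_smul])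

/-- The vertices of the `i`-th polytope in `W (i, s)`. -/
noncomputable def wv (W : Finset A.Idx) : Finset (Fin (D + 1) → ℝ) :=
  W.image fun v => (v.1.2 : Fin (D + 1) → ℝ)

theorem wv_eq {μ : Fin (D + 1) → ℝ} {i : Fin A.m} {s : Bool} (h : (A.sys R).Act (i, s) μ) :
    wv A ((A.sys R).W (i, s) μ) = (A.V i).filter fun v => gg μ v = 0 := by
  have hs : sg s ≠ 0 := fun h0 => by have := sg_sq s; rw [h0] at this; simp at this
  ext x
  simp only [wv, Finset.mem_image, Finset.mem_filter]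
  constructor
  · rintro ⟨⟨⟨j, v⟩, s'⟩, hv, rfl⟩
    have h0 := (A.sys R).h_eq_zero_of_act h hv
    have hgrp := ((A.sys R).mem_W.1 hv).1
    simp only [Polys.sys, Prod.mk.injEq] at hgrp
    obtain ⟨rfl, rfl⟩ := hgrp
    rw [h_eq] at h0
    exact ⟨v.2, (mul_eq_zero.1 h0).resolve_left hs⟩
  · rintro ⟨hx, hx0⟩
    refine ⟨(⟨i, ⟨x, hx⟩⟩, s), ?_, rfl⟩
    obtain ⟨v, hv, hv0⟩ := h
    refine (A.sys R).mem_W.2 ⟨rfl, fun w hw => ?_⟩
    have h1 := ((A.sys R).mem_W.1 hv).2 w hw
    rw [hv0] at h1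
    rw [h_eq]
    simpa [hx0] using h1

theorem contact_eq (μ : Fin (D + 1) → ℝ) (i : Fin A.m) :
    A.contact μ i = {x | ∃ s : Bool, (i, s) ∈ (A.sys R).Ig μ ∧
      x ∈ convexHull ℝ (wv A ((A.sys R).W (i, s) μ) : Set (Fin (D + 1) → ℝ))} := by
  ext x
  simp only [Polys.contact, Set.mem_ofPred_eq, Sys.Ig, Finset.mem_filter, Finset.mem_univ,
    true_and]
  constructor
  · rintro ⟨hx1, hx2, hx3⟩
    rw [mem_hyp_iff] at hx1
    obtain ⟨s, hs⟩ : ∃ s : Bool, ∀ v ∈ A.V i, 0 ≤ sg s * gg μ v := by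
      rcases hx3 with h | h
      · refine ⟨true, fun v hv => ?_⟩
        have := h v (subset_convexHull ℝ _ hv)
        simpa [sg, gg] using this
      · refine ⟨false, fun v hv => ?_⟩
        have := h v (subset_convexHull ℝ _ hv)
        simpa [sg, gg] using this
    have hsne : sg s ≠ 0 := fun h0 => by have := sg_sq s; rw [h0] at this; simp at this
    have hmem := hull_zero A hsne hs hx2 hx1
    have hact : (A.sys R).Act (i, s) μ := by
      have hne : ((A.V i).filter fun v => gg μ v = 0).Nonempty := by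
        have := (convexHull_nonempty_iff (𝕜 := ℝ)).1 ⟨x, hmem⟩
        exact_mod_cast this
      obtain ⟨v, hv⟩ := hne
      obtain ⟨hv1, hv2⟩ := Finset.mem_filter.1 hv
      refine ⟨(⟨i, ⟨v, hv1⟩⟩, s), (A.sys R).mem_W.2 ⟨rfl, ?_⟩, ?_⟩
      · rintro ⟨⟨j, w⟩, s'⟩ hw
        simp only [Polys.sys, Prod.mk.injEq] at hw
        obtain ⟨rfl, rfl⟩ := hw
        rw [h_eq, h_eq]
        simp only [hv2, mul_zero]
        exact hs w.1 w.2
      · rw [h_eq]; simp [hv2]
    exact ⟨s, hact, by rw [wv_eq A R hact]; exact hmem⟩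
  · rintro ⟨s, hact, hx⟩
    rw [wv_eq A R hact] at hx
    have hsne : sg s ≠ 0 := fun h0 => by have := sg_sq s; rw [h0] at this; simp at this
    have hnn : ∀ v ∈ A.V i, 0 ≤ sg s * gg μ v := by
      intro v hv
      obtain ⟨w, hw, hw0⟩ := hact
      have := ((A.sys R).mem_W.1 hw).2 (⟨i, ⟨v, hv⟩⟩, s) rfl
      rw [hw0, h_eq] at this
      exact this
    have hx0 : gg μ x = 0 := by
      have : x ∈ {x | gg μ x = 0} := convexHull_min
        (s := (((A.V i).filter fun v => gg μ v = 0 : Finset (Fin (D + 1) → ℝ)) :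
          Set (Fin (D + 1) → ℝ)))
        (fun v hv => (Finset.mem_filter.1 hv).2) (convex_zero μ) hx
      exact this
    refine ⟨(mem_hyp_iff _ _).2 hx0,
      convexHull_mono (fun v hv => (Finset.mem_filter.1 hv).1) hx, ?_⟩
    have hall : ∀ y ∈ A.poly i, 0 ≤ sg s * gg μ y := fun y hy => hull_nonneg A hnn hy
    cases s with
    | true => left; intro y hy; simpa [sg, gg] using hall y hy
    | false => right; intro y hy; simpa [sg, gg] using hall y hy

theorem contact_eq_of_typ {μ ν : Fin (D + 1) → ℝ} (h : (A.sys R).typ μ = (A.sys R).typ ν) :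
    A.contact μ = A.contact ν := by
  have h1 : ∀ l, (A.sys R).W l μ = (A.sys R).W l ν := fun l => congrFun (Prod.mk.inj h).1 l
  have h2 : (A.sys R).Ig μ = (A.sys R).Ig ν := (Prod.mk.inj h).2
  funext i
  rw [contact_eq A R, contact_eq A R, h2]
  simp only [h1]

theorem typ_combo {μ ν : Fin (D + 1) → ℝ} (h : (A.sys R).typ μ = (A.sys R).typ ν)
    (hμ : ∀ l, ¬ (A.sys R).In l μ) (hν : ∀ l, ¬ (A.sys R).In l ν) {a b : ℝ} (ha : 0 ≤ a)
    (hb : 0 ≤ b) (hab : a + b = 1) :
    (A.sys R).typ (a • μ + b • ν) = (A.sys R).typ μ ∧ ∀ l, ¬ (A.sys R).In l (a • μ + b • ν) := by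
  have h1 : ∀ l, (A.sys R).W l μ = (A.sys R).W l ν := fun l => congrFun (Prod.mk.inj h).1 l
  have h2 : (A.sys R).Ig μ = (A.sys R).Ig ν := (Prod.mk.inj h).2
  set B := A.sys R with hB
  have hW : ∀ l, B.W l (a • μ + b • ν) = B.W l μ := by
    intro l
    obtain ⟨w0, hw0⟩ := B.W_nonempty (full A R) l μ
    have hw0' : w0 ∈ B.W l ν := h1 l ▸ hw0
    ext v
    constructor
    · intro hv
      have hvg := (B.mem_W.1 hv).1
      have i1 := (B.mem_W.1 hv).2 w0 (B.mem_W.1 hw0).1
      rw [h_combo A R _ _ _ _ _ hab, h_combo A R _ _ _ _ _ hab] at i1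
      have i2 := (B.mem_W.1 hw0).2 v hvg
      have i3 := (B.mem_W.1 hw0').2 v hvg
      have key : B.h v μ ≤ B.h w0 μ ∨ B.h v ν ≤ B.h w0 ν := by
        by_contra hcon
        push Not at hcon
        rcases eq_or_lt_of_le ha with ha' | ha'
        · have : b = 1 := by linarith
          rw [this, ← ha'] at i1
          linarith
        · have := mul_lt_mul_of_pos_left hcon.1 ha'
          have := mul_le_mul_of_nonneg_left i3 hb
          linarith
      rcases key with hk | hk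
      · exact B.mem_W.2 ⟨hvg, fun w hw => hk.trans ((B.mem_W.1 hw0).2 w hw)⟩
      · rw [h1 l]
        exact B.mem_W.2 ⟨hvg, fun w hw => hk.trans ((B.mem_W.1 hw0').2 w hw)⟩
    · intro hv
      have hv' : v ∈ B.W l ν := h1 l ▸ hv
      refine B.mem_W.2 ⟨(B.mem_W.1 hv).1, fun w hw => ?_⟩
      rw [h_combo A R _ _ _ _ _ hab, h_combo A R _ _ _ _ _ hab]
      have i2 := mul_le_mul_of_nonneg_left ((B.mem_W.1 hv).2 w hw) ha
      have i3 := mul_le_mul_of_nonneg_left ((B.mem_W.1 hv').2 w hw) hb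
      linarith
  have hact : ∀ l, B.Act l (a • μ + b • ν) ↔ B.Act l μ := by
    intro l
    obtain ⟨w0, hw0⟩ := B.W_nonempty (full A R) l μ
    have hw0' : w0 ∈ B.W l ν := h1 l ▸ hw0
    have hw0'' : w0 ∈ B.W l (a • μ + b • ν) := (hW l).symm ▸ hw0
    have hiff : B.Act l μ ↔ B.Act l ν := by
      have := congrArg (fun T => l ∈ T) h2
      simpa [Sys.Ig] using this
    constructor
    · intro hl
      by_contra hno
      have hno' : ¬ B.Act l ν := fun h => hno (hiff.2 h)
      have j1 := not_act_neg A R (hμ l) hno w0 hw0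
      have j2 := not_act_neg A R (hν l) hno' w0 hw0'
      rw [B.act_iff hw0'', h_combo A R _ _ _ _ _ hab] at hl
      rcases eq_or_lt_of_le ha with ha' | ha'
      · have : b = 1 := by linarith
        rw [this, ← ha'] at hl
        linarith
      · have := mul_pos ha' (neg_pos.2 j1)
        have := mul_nonneg hb (neg_pos.2 j2).le
        nlinarith
    · intro hl
      have hl' := hiff.1 hl
      rw [B.act_iff hw0'', h_combo A R _ _ _ _ _ hab, B.h_eq_zero_of_act hl hw0,
        B.h_eq_zero_of_act hl' hw0']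
      simp
  refine ⟨?_, ?_⟩
  · unfold Sys.typ
    refine Prod.ext (funext hW) ?_
    simp only [Sys.Ig, hact]
  · intro l hin
    obtain ⟨w0, hw0⟩ := B.W_nonempty (full A R) l μ
    have hw0' : w0 ∈ B.W l ν := h1 l ▸ hw0
    have hw0'' : w0 ∈ B.W l (a • μ + b • ν) := (hW l).symm ▸ hw0
    rw [B.in_iff hw0'', h_combo A R _ _ _ _ _ hab] at hin
    have j1 := not_in_nonpos A R (hμ l) w0 hw0
    have j2 := not_in_nonpos A R (hν l) w0 hw0'
    have := mul_nonneg ha (neg_nonneg.2 j1)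
    have := mul_nonneg hb (neg_nonneg.2 j2)
    nlinarith

theorem comp_eq_of_typ {μ ν : Fin (D + 1) → ℝ} (h : (A.sys R).typ μ = (A.sys R).typ ν)
    (hμ : μ ∈ frontier A.transversals) (hν : ν ∈ frontier A.transversals) :
    connectedComponentIn (A.level μ) μ = connectedComponentIn (A.level ν) ν := by
  have hlev : A.level μ = A.level ν := by
    unfold Polys.level
    rw [contact_eq_of_typ A R h]
  have hμ' := (mem_frontier_iff A R μ).1 hμ
  have hν' := (mem_frontier_iff A R ν).1 hν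
  have hseg : segment ℝ μ ν ⊆ A.level μ := by
    rintro ρ ⟨a, b, ha, hb, hab, rfl⟩
    obtain ⟨k1, k2⟩ := typ_combo A R h hμ'.1 hν'.1 ha hb hab
    refine ⟨(mem_frontier_iff A R _).2 ⟨k2, ?_⟩, contact_eq_of_typ A R k1⟩
    obtain ⟨l, hl⟩ := hμ'.2
    refine ⟨l, ?_⟩
    have : (A.sys R).Ig (a • μ + b • ν) = (A.sys R).Ig μ := (Prod.mk.inj k1).2
    have := congrArg (fun T => l ∈ T) this
    simp only [Sys.Ig, Finset.mem_filter, Finset.mem_univ, true_and, eq_iff_iff] at this
    exact this.2 hl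
  have hmem : ν ∈ connectedComponentIn (A.level μ) μ :=
    (convex_segment μ ν).isPreconnected.subset_connectedComponentIn (left_mem_segment ℝ μ ν)
      hseg (right_mem_segment ℝ μ ν)
  rw [← hlev]
  exact connectedComponentIn_eq hmem

theorem facesTypes : FacesTypes := by
  intro D A R
  set T := (A.sys R).typ '' {q | ∀ l, ¬ (A.sys R).In l q} with hT
  have hTf : T.Finite := Set.toFinite T
  have hch : ∀ F : Set (Fin (D + 1) → ℝ), ∃ μ : Fin (D + 1) → ℝ, F ∈ A.faces →
      μ ∈ frontier A.transversals ∧ F = connectedComponentIn (A.level μ) μ := by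
    intro F
    by_cases hF : F ∈ A.faces
    · obtain ⟨μ, h1, h2⟩ := hF
      exact ⟨μ, fun _ => ⟨h1, h2⟩⟩
    · exact ⟨0, fun h => absurd h hF⟩
  choose c hc using hch
  have hmaps : Set.MapsTo (fun F => (A.sys R).typ (c F)) A.faces T := by
    intro F hF
    exact ⟨c F, ((mem_frontier_iff A R _).1 (hc F hF).1).1, rfl⟩
  have hinj : Set.InjOn (fun F => (A.sys R).typ (c F)) A.faces := by
    intro F hF G hG hFG
    rw [(hc F hF).2, (hc G hG).2]
    exact comp_eq_of_typ A R hFG (hc F hF).1 (hc G hG).1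
  exact ⟨Set.Finite.of_injOn hmaps hinj hTf, Set.ncard_le_ncard_of_injOn _ hmaps hinj hTf⟩

end Pool.Agent.Helper27.Trans
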